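import Pool.Agent.Helper80.FS.M_A1
import Pool.Agent.Helper60.FS.M_A2
import Pool.Agent.Helper48.FS.M_A3
import Pool.Agent.Helper72.FS.M_A4
import Pool.Agent.Helper6.FS.M_A5
import Pool.Agent.Helper8.FS.M_A6
import Pool.Agent.Helper72.FS.M_A7
import Pool.Agent.Helper80.FS.M_B1
import Pool.Agent.Helper13.FS.M_B2
import Pool.Agent.Helper16.FS.M_B3
import Pool.Agent.Helper79.FS.M_B4
import Pool.Agent.Helper30.FS.M_B5
import Pool.Agent.Helper41.FS.M_B6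
import Pool.Agent.Helper19.FS.M_F1
import Pool.Agent.Helper80.FS.M_F2
import Pool.Agent.Helper47.FS.M_F3

/-!
# Project FS: assembly
-/

set_option autoImplicit false

namespace Pool.Agent.Helper75.FS

theorem aA1 : StA1 := Pool.Agent.Helper80.FS.hA1
theorem aA2 : StA2 := Pool.Agent.Helper60.FS.hA2
theorem aA3 : StA3 := Pool.Agent.Helper48.FS.hA3
theorem aA4 : StA4 := Pool.Agent.Helper72.FS.hA4
theorem aA5 : StA5 := Pool.Agent.Helper6.FS.hA5 aA1 aA2 aA4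
theorem aA6 : StA6 := Pool.Agent.Helper8.FS.hA6 aA3
theorem aA7 : StA7 := Pool.Agent.Helper72.FS.hA7 aA4
theorem aB1 : StB1 := Pool.Agent.Helper80.FS.hB1 aA4
theorem aB2 : StB2 := Pool.Agent.Helper13.FS.hB2 aA3 aA6 aB1
theorem aB3 : StB3 := Pool.Agent.Helper16.FS.hB3 aA4 aB1
theorem aB4 : StB4 := Pool.Agent.Helper79.FS.hB4 aA2 aA5 aA7 aB1 aB2 aB3
theorem aB5 : StB5 := Pool.Agent.Helper30.FS.hB5 aA5 aA7 aB1 aB2 aB3
theorem aB6 : StB6 := Pool.Agent.Helper41.FS.hB6 aA2 aA4 aA5 aA7 aB1 aB2 aB3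
theorem aF1 : StF1 := Pool.Agent.Helper19.FS.hF1 aB4 aB6
theorem aF2 : StF2 := Pool.Agent.Helper80.FS.hF2 aB1 aB4 aB6
theorem aF3 : StF3 := Pool.Agent.Helper47.FS.hF3 aA3 aA5 aA7 aB1 aB4 aB5 aB6

end Pool.Agent.Helper75.FS
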