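import Pool.Agent.Helper26.CovL.Num

/-!
# Project FS (MP_e73f90_co): the covering densities of linear codes are governed by finite codes

`mm n r` is the least density `|V| |B(n,r)| / 2^n` of a linear covering code `V ≤ F_2^n` of radius `r`.  For a residue class
`ρ` modulo `r` let `LL r ρ` be the infimum of `(n+r)^r / (r! 2^c)` over all linear codes of length `n`, codimension
`c ≡ ρ (mod r)` and covering radius at most `r`.

THEOREM (F3). `r ≥ 1`.  The cluster points of the sequence `n ↦ mm n r` are exactly the numbers in the union of the intervals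
`[LL r ρ, 2 LL r (ρ+1)]`, `ρ = 0, .., r-1`; in particular `liminf = min_ρ LL r ρ` and `limsup = 2 max_ρ LL r ρ`.

All statements are elementary.  Tools of helper26: `Syn`, `Syn.blowup`, `Syn.code` in `Pool/Agent/Helper26/CovL/Syn.lean`,
`card_ball_le` in `Pool/Agent/Helper26/CovL/Num.lean`.
-/

set_option autoImplicit false

namespace Pool.Agent.Helper75.FS

open Filter

/-- `V` is a covering subspace of radius `r` -/
def Cov (n r : ℕ) (V : Submodule (ZMod 2) (Fin n → ZMod 2)) : Prop :=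
  ∀ y : Fin n → ZMod 2, ∃ v ∈ V, hammingNorm (y - v) ≤ r

/-- the number of words of weight at most `r` -/
def ball (n r : ℕ) : ℕ := (Finset.univ.filter (fun x : Fin n → ZMod 2 => hammingNorm x ≤ r)).card

/-- the least density of a linear covering code of length `n` and radius `r` -/
noncomputable def mm (n r : ℕ) : ℝ :=
  sInf {x : ℝ | ∃ V : Submodule (ZMod 2) (Fin n → ZMod 2), Cov n r V ∧
    x = (Nat.card V : ℝ) * (ball n r : ℝ) / 2 ^ n}

/-- there is a linear code of length `n`, codimension `c` and covering radius at most `r` -/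
def Code (n r c : ℕ) : Prop :=
  ∃ V : Submodule (ZMod 2) (Fin n → ZMod 2), Cov n r V ∧ Nat.card V * 2 ^ c = 2 ^ n

/-- the infimum of `(n+r)^r / (r! 2^c)` over all linear codes of length `n`, codimension `c ≡ ρ (mod r)` and covering
radius at most `r` -/
noncomputable def LL (r ρ : ℕ) : ℝ :=
  sInf {x : ℝ | ∃ n c : ℕ, Code n r c ∧ c ≡ ρ [MOD r] ∧
    x = ((n : ℝ) + r) ^ r / ((r.factorial : ℝ) * 2 ^ c)}

/-- A1. Every covering code has a codimension.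
Proof. `V` is a vector space over a field with two elements: `|V| = 2^k`, `k = finrank V ≤ n`, `c = n - k`.
Hypotheses: none. -/
def StA1 : Prop := ∀ (n r : ℕ) (V : Submodule (ZMod 2) (Fin n → ZMod 2)), Cov n r V →
  ∃ c : ℕ, Nat.card V * 2 ^ c = 2 ^ n

/-- A2. Smaller codimension.
Proof. Let `V` have codimension `c + 1 ≥ 1`; then `V ≠ ⊤` (`2^n = |V| 2^(c+1)`), choose `x ∉ V`, `V' = V ⊔ span {x}` has
`2 |V|` elements (`finrank`), and it covers.
Hypotheses: none. -/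
def StA2 : Prop := ∀ n r c : ℕ, Code n r (c + 1) → Code n r c

/-- A3. Larger length.
Proof. It suffices to go from `n` to `n + 1`.  `V' = {x : Fin (n+1) → F_2 | (x_0, .., x_{n-1}) ∈ V}` (comap of the
restriction to the first `n` coordinates): `|V'| = 2 |V|`; it covers: change `y` in at most `r` of the first `n`
coordinates.
Hypotheses: none. -/
def StA3 : Prop := ∀ n n' r c : ℕ, n ≤ n' → Code n r c → Code n' r c

/-- A4. The sphere covering bound, trivial codes.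
Proof. (a) `⊤` covers.  (b) `n ≤ r`: `⊥` covers, codimension `n`.  (c) `|V| 2^c = 2^n`, so `2^c ≤ 2^n`.  (d) the map
`V × B(n,r) → F_2^n`, `(v,b) ↦ v + b` is surjective: `2^n ≤ |V| ball n r`, multiply by `2^c` and cancel `2^n`.
(e) `Pool.Agent.Helper26.CovL.card_ball_le`: `ball n r ≤ C(n+r,r) ≤ (n+r)^r/r!` (`Nat.choose_le_pow_div`).
Hypotheses: none. -/
def StA4 : Prop := (∀ n r, Code n r 0) ∧ (∀ n r, n ≤ r → Code n r n) ∧
  (∀ n r c, Code n r c → c ≤ n) ∧ (∀ n r c, Code n r c → 2 ^ c ≤ ball n r) ∧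
  (∀ n r, (ball n r : ℝ) ≤ ((n : ℝ) + r) ^ r / r.factorial)

/-- A5. The least density in terms of the codimension.
Proof. (a) `Code n r c`: the density of the code is `|V| ball/2^n = ball/2^c`; `csInf_le` (the set is bounded below by
`0`).  (b) By A4(a), (c) there is a largest `c` with `Code n r c` (`Nat.findGreatest` or `Nat.find`); `¬ Code n r (c+1)`,
and by A2 no larger codimension occurs (if `Code n r c'` with `c' > c`, descend to `c + 1`).  By A1 every covering `V` has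
a codimension `c' ≤ c`, so its density `ball/2^c'` is `≥ ball/2^c`: `mm n r = ball/2^c` (`le_csInf`, nonempty).
Hypotheses: hA1 hA2 hA4. -/
def StA5 : Prop := (∀ n r c, Code n r c → mm n r ≤ (ball n r : ℝ) / 2 ^ c) ∧
  (∀ n r, ∃ c, Code n r c ∧ ¬ Code n r (c + 1) ∧ mm n r = (ball n r : ℝ) / 2 ^ c) ∧
  (∀ n r c, ¬ Code n r (c + 1) → (ball n r : ℝ) / 2 ^ c ≤ mm n r)

/-- A6. BLOW-UP.
Proof. `Q = F_2^n / V` (`Fintype`, `|Q| = 2^c`), `h : Fin n ⊕ Fin r → Q`, `h (inl i) = [e_i]`, `h (inr j) = 0`.  `Syn h r`: a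
class `[y]`, `y - v` of weight `≤ r` for some `v ∈ V`; `T` = its support (as a subset of the `inl` part) plus
`r - |T|` of the `inr j`.  `Syn.blowup` with `F = GaloisField 2 t` (`t ≥ 1` since `2^t ≥ n + r ≥ 2` or treat `t = 0`: then
`n + r ≤ 1`, so `r ≤ 1`, `(n,r) = (0,1)` or `(1,0), (0,0)`; `(n+r) 2^0 = n + r`, `c + r·0 = c`: this is A3), and
`Syn.code`; the number of labels is `(n+r) 2^t`, `|Q × (Fin r → F)| = 2^(c + r t)`.
(Model: `Pool.Agent.Helper26.CovL.exists_code`.)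
Hypotheses: hA3. -/
def StA6 : Prop := ∀ n r c t : ℕ, Code n r c → n + r ≤ 2 ^ t →
  Code ((n + r) * 2 ^ t) r (c + r * t)

/-- A7. The size of the ball.
Proof. `ball n r ≥ C(n,r)` (words of weight exactly `r`) and `C(n,r) ≥ (n+1-r)^r/r!` (`Nat.pow_le_choose`), so for
large `n` `ball n r ≥ (1-ε) n^r/r!`; above: A4(e) `(n+r)^r/r!`, and `((n+r)/n)^r → 1`, `((n+1-r)/n)^r → 1`.
Hypotheses: hA4. -/
def StA7 : Prop := ∀ (r : ℕ) (ε : ℝ), 0 < ε → ∃ N : ℕ, ∀ n : ℕ, N ≤ n →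
  (1 - ε) * ((n : ℝ) ^ r / r.factorial) ≤ ball n r ∧
  (ball n r : ℝ) ≤ (1 + ε) * ((n : ℝ) ^ r / r.factorial)

/-- B1. Bounds for `LL`.
Proof. The set is nonempty: `ρ' = ρ % r < r`, `Code ρ' r ρ'` (A4(b)).  Its elements are `≥ 1`: `2^c ≤ ball n r ≤ (n+r)^r/r!`
(A4(d), (e)).  So `1 ≤ LL r ρ ≤ (2r)^r`.  `LL` depends only on `ρ` modulo `r` (`Nat.ModEq` is an equivalence relation).
`LL r ρ ≤ x` for every element.
Hypotheses: hA4. -/
def StB1 : Prop := ∀ r : ℕ, 1 ≤ r → (∀ ρ, 1 ≤ LL r ρ ∧ LL r ρ ≤ (2 * (r : ℝ)) ^ r) ∧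
  (∀ ρ ρ', ρ ≡ ρ' [MOD r] → LL r ρ = LL r ρ') ∧
  (∀ n c, Code n r c → LL r c ≤ ((n : ℝ) + r) ^ r / ((r.factorial : ℝ) * 2 ^ c)) ∧
  (∀ ρ (ε : ℝ), 0 < ε → ∃ n c, Code n r c ∧ c ≡ ρ [MOD r] ∧
    ((n : ℝ) + r) ^ r / ((r.factorial : ℝ) * 2 ^ c) < LL r ρ + ε)

/-- B2. Codes exist above the threshold.
Proof. It suffices to find `C` for each residue `ρ < r` (finite maximum).  B1: `n₀, c₀` with `c₀ ≡ ρ` and
`(n₀+r)^r < (LL r ρ + ε) r! 2^c₀`; `2^t₀ ≥ n₀ + r`; `C = c₀ + r t₀`.  Let `c ≥ C`, `c ≡ ρ`: `c = c₀ + r t`, `t ≥ t₀`.  A6: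
`Code ((n₀+r) 2^t) r c`.  `((n₀+r) 2^t)^r < (LL r ρ + ε) r! 2^c ≤ n^r`, so `(n₀+r) 2^t ≤ n`; A3.
Hypotheses: hA3 hA6 hB1. -/
def StB2 : Prop := ∀ r : ℕ, 1 ≤ r → ∀ ε : ℝ, 0 < ε → ∃ C : ℕ, ∀ c : ℕ, C ≤ c → ∀ n : ℕ,
  (LL r c + ε) * ((r.factorial : ℝ) * 2 ^ c) ≤ (n : ℝ) ^ r → Code n r c

/-- B3. Codes do not exist below the threshold.
Proof. `(n+r)^r ≥ LL r c r! 2^c` (B1).  `n ≥ c` (A4(c)) is large, so `(n+r)^r ≤ (1+δ) n^r` and
`n^r ≥ LL r c r! 2^c/(1+δ) ≥ (LL r c)(1-δ) r! 2^c ≥ (LL r c - ε) r! 2^c` for `δ (2r)^r ≤ ε`.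
Hypotheses: hA4 hB1. -/
def StB3 : Prop := ∀ r : ℕ, 1 ≤ r → ∀ ε : ℝ, 0 < ε → ∃ C : ℕ, ∀ c : ℕ, C ≤ c → ∀ n : ℕ,
  Code n r c → (LL r c - ε) * ((r.factorial : ℝ) * 2 ^ c) ≤ (n : ℝ) ^ r

/-- B4. The position of `n`.  For large `n` there is `c` (the largest codimension) with `mm n r` close to
`x = n^r/(r! 2^c)` and `LL r c - ε ≤ x ≤ 2 LL r (c+1) + ε`.
Proof. A5(b): `c` with `Code n r c`, `¬ Code n r (c+1)`, `mm n r = ball n r/2^c`.  `c ≥ C` for large `n`: by B2 for the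
fixed codimension `C + 1`.. more precisely: for given `C` let `n` be so large that `Code n r C'` holds for some `C' > C`
(B2: take `C' ≥` the constant of B2 and `> C`, `n^r ≥ (LL r C' + 1) r! 2^C'`); if `c < C'` then `c + 1 ≤ C'` and A2
(descent) gives `Code n r (c+1)`, contradiction; so `c ≥ C'`.  Now B3 for `c` gives the lower bound of `x`, B2
for `c + 1` (contrapositive) gives `n^r < (LL r (c+1) + ε/2) r! 2^(c+1)`, the upper bound of `x`.
`|ball n r/2^c - x| ≤ ε' x` (A7) and `x ≤ 2 (2r)^r + ε` is bounded (B1).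
Hypotheses: hA2 hA5 hA7 hB1 hB2 hB3. -/
def StB4 : Prop := ∀ r : ℕ, 1 ≤ r → ∀ ε : ℝ, 0 < ε → ∃ N : ℕ, ∀ n : ℕ, N ≤ n →
  ∃ ρ : ℕ, ρ < r ∧ LL r ρ - ε ≤ mm n r ∧ mm n r ≤ 2 * LL r (ρ + 1) + ε

/-- B5. Every number strictly between `LL r ρ` and `2 LL r (ρ+1)` is a limit of least densities.
Proof. `x > 0` (B1).  Choose `ε' > 0` small: `LL r ρ + ε' < x (1 - ε')`-type inequalities as below.  For `c ≡ ρ` large let
`n = ⌈(x r! 2^c)^(1/r)⌉` (or: the least `n` with `n^r ≥ x r! 2^c`; so `(n-1)^r < x r! 2^c ≤ n^r`, `n ≥ 1`); `n → ∞` as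
`c → ∞` and `x ≤ n^r/(r! 2^c) ≤ x (n/(n-1))^r → x`.  B2 (with `x ≥ LL r ρ + ε'`): `Code n r c`.  `¬ Code n r (c+1)`: otherwise
B3 gives `n^r ≥ (LL r (ρ+1) - ε') r! 2^(c+1)`, i.e. `n^r/(r! 2^c) ≥ 2 LL r (ρ+1) - 2 ε'`, false for large `c` if
`x < 2 LL r (ρ+1) - 3 ε'`.  A5 (a), (c): `mm n r = ball n r/2^c`, which is within `ε` of `x` (A7).
Hypotheses: hA5 hA7 hB1 hB2 hB3. -/
def StB5 : Prop := ∀ r : ℕ, 1 ≤ r → ∀ ρ : ℕ, ∀ x : ℝ, LL r ρ < x → x < 2 * LL r (ρ + 1) →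
  ∀ ε : ℝ, 0 < ε → ∀ N : ℕ, ∃ n : ℕ, N ≤ n ∧ |mm n r - x| < ε

/-- B6. The end points.
Proof. (a) `LL r ρ` is approached from above: for `c ≡ ρ` large let `n` be least with `n^r ≥ (LL r ρ + ε') r! 2^c`; B2:
`Code n r c`; A5(a): `mm n r ≤ ball n r/2^c ≤ (1+ε') n^r/(r! 2^c) ≤ LL r ρ + ε` (A7, `(n/(n-1))^r → 1`).
(b) `2 LL r (ρ+1)`: for `c + 1 ≡ ρ + 1` large let `n + 1` be least with `Code (n+1) r (c+1)` (it exists: B2;
`¬ Code 0 r (c+1)` as `c + 1 > 0`: A4(c)).  `¬ Code n r (c+1)`, so A5(c): `mm n r ≥ ball n r/2^c ≥ (1-ε') n^r/(r! 2^c)` and by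
B3 `(n+1)^r ≥ (LL r (ρ+1) - ε') r! 2^(c+1)`; `n + 1 ≥ c + 1` is large, `(n/(n+1))^r → 1`.
(c) `LL r ρ ≤ 2 LL r (ρ+1)`: a code of codimension `c ≡ ρ + 1` and length `n` gives one of codimension `c - 1` if
`c ≥ 1` (A2), whose number is twice as large; if `c = 0` then `ρ + 1 ≡ 0`: use the blow-up (A6 with `t` large, `c = r t`)
instead: its number is `((n+r) 2^t + r)^r/(r! 2^(rt)) → (n+r)^r/r!` as `t → ∞`.
(Simplest: use B2, B3: for `c + 1 ≡ ρ + 1` large and `n` least with `n^r ≥ (LL r (ρ+1) + ε) r! 2^(c+1)` we have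
`Code n r (c+1)`, so `Code n r c`, so `n^r ≥ (LL r ρ - ε) r! 2^c` by B3, and `n^r ≤ (1+δ)(LL r (ρ+1) + ε) r! 2^(c+1)`.)
Hypotheses: hA2 hA4 hA5 hA7 hB1 hB2 hB3. -/
def StB6 : Prop := ∀ r : ℕ, 1 ≤ r → ∀ ρ : ℕ,
  (∀ ε : ℝ, 0 < ε → ∀ N : ℕ, ∃ n : ℕ, N ≤ n ∧ mm n r ≤ LL r ρ + ε) ∧
  (∀ ε : ℝ, 0 < ε → ∀ N : ℕ, ∃ n : ℕ, N ≤ n ∧ 2 * LL r (ρ + 1) - ε ≤ mm n r) ∧
  LL r ρ ≤ 2 * LL r (ρ + 1)

/-- F1. The limit inferior.
Proof. For every `ε > 0` eventually `mm n r ≥ min LL - ε` (B4), and frequently `mm n r ≤ LL r ρ + ε` for the `ρ` of the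
minimum (B6(a)).  Work in `EReal` (`Filter.liminf`, `le_liminf_of_le`, `liminf_le_of_frequently_le'`-type lemmas).
Hypotheses: hB4 hB6. -/
def StF1 : Prop := ∀ r : ℕ, 1 ≤ r →
  Filter.liminf (fun n : ℕ => ((mm n r : ℝ) : EReal)) atTop = ⨅ ρ : Fin r, ((LL r ρ : ℝ) : EReal)

/-- F2. The limit superior.
Proof. As F1, with B4 and B6(b) (every `ρ` is `ρ' + 1` modulo `r`; B1: `LL` depends on the residue only).
Hypotheses: hB1 hB4 hB6. -/
def StF2 : Prop := ∀ r : ℕ, 1 ≤ r →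
  Filter.limsup (fun n : ℕ => ((mm n r : ℝ) : EReal)) atTop =
    ⨆ ρ : Fin r, ((2 * LL r ρ : ℝ) : EReal)

/-- F3. The cluster points.
Proof. `x` is a cluster point iff for all `ε > 0` and `N` there is `n ≥ N` with `|mm n r - x| < ε`
(`mapClusterPt_iff_frequently`, `Metric.nhds_basis_ball`).  Let `x` be a cluster point; by B4 for every `k` there is
`ρ_k < r` with `LL r ρ_k - 2/k ≤ x ≤ 2 LL r (ρ_k+1) + 2/k`; some `ρ` occurs infinitely often: `x ∈ [LL r ρ, 2 LL r (ρ+1)]`.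
Conversely let `x` be in such an interval.  If `LL r ρ < 2 LL r (ρ+1)` then B5 gives the interior points, and the end
points are limits of interior points.  If `LL r ρ = 2 LL r (ρ+1) = x`: this is not covered by B5.  CLAIM: then still `x` is a
cluster point: by B6(a), (b) there are infinitely many `n` with `mm n r ≤ x + ε` and infinitely many with
`mm n r ≥ x - ε`; and `mm (n+1) r ≤ (1+ε) mm n r` for large `n`, i.e. the sequence increases only slowly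
(`Code n r c` implies `Code (n+1) r c`, so `mm (n+1) r ≤ ball (n+1) r/2^c`, A7).  So if `mm n r ≤ x + ε` for some `n` and
`mm n' r ≥ x - ε` for some later `n'`: if some `n''` in `[n,n']` has `|mm n'' r - x| ≤ 2ε` we are done; otherwise all
`mm` in this range are outside `[x-2ε, x+2ε]`, the first is below, the last is above, and the first time it is above the
increase is at least `4 ε`, contradiction with slow increase (`mm` is bounded, B4).
Hypotheses: hA3 hA5 hA7 hB1 hB4 hB5 hB6. -/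
def StF3 : Prop := ∀ r : ℕ, 1 ≤ r →
  {x : ℝ | MapClusterPt x atTop (fun n : ℕ => mm n r)} =
    ⋃ ρ : Fin r, Set.Icc (LL r ρ) (2 * LL r ((ρ : ℕ) + 1))

end Pool.Agent.Helper75.FS
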